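import Pool.Agent.R812.ScottComp

/-!
# Every Scott completion of a `T0` space is a D-completion
-/

set_option autoImplicit false

namespace Pool.Agent.Results.MP_50fe75_gt.ScottIsD

open Pool.Agent.R812.ScottComp

universe u

/-- For every `T0` space `X` and every Scott completion `i : X → X'`, the map `i` is a
D-completion. -/
theorem result (X X' : Type u) [TopologicalSpace X] [TopologicalSpace X'] [T0Space X]
    (i : X → X') (hi : ScottCompletion i) : DCompletion i :=
  main i hi

end Pool.Agent.Results.MP_50fe75_gt.ScottIsD
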